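import Mathlib

/-!
# Two double covers of projective space and their divisors: definitions

`Val k E`: a surjective discrete valuation of `E`, trivial on `k`, written additively as a function
`E → ℤ` (with the value `0` at `0`). `mn v z` is the minimum of the values of the nonzero entries
of `z`. `Cover k E n`: a point `x` of `P^n` over `E` (`x 0 = 1`, the other coordinates
algebraically independent) together with an involution `σ` of `E` whose fixed field is `k(x)`.
`Over C v A e`: the valuation `v` lies over the prime divisor `A = 0` of `P^n`, with ramification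
index `e`. `IsChow x σ y c Φ`: the quadratic form `Φ` over `k[X]`, homogeneous of degree `c` in
`X` and without common factor, is at `x` the product of the linear forms `y` and `σ y`.
-/

namespace Pool.Agent.Helper47.NPD

open MvPolynomial

variable (k E : Type*) [Field k] [Field E] [Algebra k E]

/-- A surjective discrete valuation of `E` which is trivial on `k`. -/
structure Val where
  /-- the valuation -/
  v : E → ℤ
  mul' : ∀ a b, a ≠ 0 → b ≠ 0 → v (a * b) = v a + v b
  add' : ∀ a b, a ≠ 0 → b ≠ 0 → a + b ≠ 0 → min (v a) (v b) ≤ v (a + b)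
  alg' : ∀ c : k, c ≠ 0 → v (algebraMap k E c) = 0
  zero' : v 0 = 0
  surj : ∃ t, t ≠ 0 ∧ v t = 1

variable {k E}

/-- The minimum of the values of the nonzero entries of `z`. -/
noncomputable def mn (v : Val k E) {m : ℕ} (z : Fin m → E) : ℤ :=
  sInf {a | ∃ i, z i ≠ 0 ∧ v.v (z i) = a}

/-- The action of automorphisms on valuations. -/
def Val.comap (v : Val k E) (σ : E ≃ₐ[k] E) : Val k E where
  v := fun z => v.v (σ z)
  mul' a b ha hb := by
    rw [map_mul]
    exact v.mul' _ _ (by simpa using ha) (by simpa using hb)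
  add' a b ha hb hab := by
    have h : σ a + σ b ≠ 0 := by
      rw [← map_add]
      exact fun h => hab ((map_eq_zero_iff σ σ.injective).1 h)
    rw [map_add]
    exact v.add' _ _ (by simpa using ha) (by simpa using hb) h
  alg' c hc := by
    rw [AlgEquiv.commutes]
    exact v.alg' c hc
  zero' := by rw [map_zero, v.zero']
  surj := by
    obtain ⟨t, ht, h⟩ := v.surj
    exact ⟨σ.symm t, by simpa using ht, by simpa using h⟩

variable (k E) in
/-- A double cover of the `n`-dimensional projective space. -/
structure Cover (n : ℕ) where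
  /-- the point -/
  x : Fin (n + 1) → E
  /-- the involution -/
  σ : E ≃ₐ[k] E
  x0 : x 0 = 1
  ind : AlgebraicIndependent k fun i : Fin n => x i.succ
  invol : ∀ z, σ (σ z) = z
  fix : ∀ z, σ z = z ↔ z ∈ IntermediateField.adjoin k (Set.range x)
  ne : ∃ z, σ z ≠ z

/-- The valuation `v` lies over the prime divisor `A = 0`, with ramification index `e`. -/
def Over {n : ℕ} (C : Cover k E n) (v : Val k E) (A : MvPolynomial (Fin (n + 1)) k) (e : ℕ) :
    Prop :=
  0 < e ∧ ∀ (g : ℕ) (G : MvPolynomial (Fin (n + 1)) k), G.IsHomogeneous g → ∀ (m : ℕ), ¬ A ∣ G →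
    v.v (aeval C.x (A ^ m * G)) = ((m * A.totalDegree + g : ℕ) : ℤ) * mn v C.x + ((m * e : ℕ) : ℤ)

/-- `v` is a divisor of the cover `C`. -/
def IsDiv {n : ℕ} (C : Cover k E n) (v : Val k E) : Prop :=
  ∃ (A : MvPolynomial (Fin (n + 1)) k) (d e : ℕ), Irreducible A ∧ A.IsHomogeneous d ∧ Over C v A e

/-- `Φ` is the Chow form of the pair of points `y`, `σ y`. -/
structure IsChow {n m : ℕ} (x : Fin (n + 1) → E) (σ : E ≃ₐ[k] E) (y : Fin (m + 1) → E) (c : ℕ)
    (Φ : Fin (m + 1) → Fin (m + 1) → MvPolynomial (Fin (n + 1)) k) : Prop where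
  hom : ∀ i j, (Φ i j).IsHomogeneous c
  form : ∃ D : E, D ≠ 0 ∧ ∀ i j, aeval x (Φ i j) = D * (y i * σ (y j) + y j * σ (y i))
  prim : ∀ A, Irreducible A → ∃ i j, ¬ A ∣ Φ i j

end Pool.Agent.Helper47.NPD
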