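import Mathlib

/-!
# Periodic points in residue discs

Let `f` be an automorphism of a ring `O` (think of the local ring of an integral model at a closed
point fixed by a birational map) and `D` a domain (a ring of integers at a place over `p`) such
that `O` has only finitely many homomorphisms to the dual numbers over `D / p ^ 2`. Then there is
`M > 0` such that every homomorphism `z : O → D` which is periodic under `f` is fixed by the
`M`-th power of `f`.
-/

namespace Pool.Agent.Helper47.NPD

variable {O D : Type*} [CommRing O] [CommRing D]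

/-- Precomposition with an automorphism. -/
def precomp {R : Type*} [CommRing R] (f : O ≃+* O) : (O →+* R) ≃ (O →+* R) where
  toFun z := z.comp f.toRingHom
  invFun z := z.comp f.symm.toRingHom
  left_inv z := by ext h; simp
  right_inv z := by ext h; simp

theorem iterate_precomp {R : Type*} [CommRing R] (f : O ≃+* O) (n : ℕ) (z : O →+* R) (h : O) :
    ((precomp f ^ n) z) h = z (f^[n] h) := by
  induction n generalizing z h with
  | zero => simp
  | succ n ih =>
    rw [pow_succ', Equiv.Perm.mul_apply, Function.iterate_succ_apply']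
    show ((precomp f ^ n) z) (f h) = _
    rw [ih, ← Function.iterate_succ_apply, Function.iterate_succ_apply']

theorem exists_trivial {R : Type*} [CommRing R] [Finite (O →+* R)] (f : O ≃+* O) :
    ∃ M, 0 < M ∧ ∀ (z : O →+* R) (h : O), z (f^[M] h) = z h := by
  refine ⟨orderOf (precomp (R := R) f), orderOf_pos _, fun z h => ?_⟩
  rw [← iterate_precomp, pow_orderOf_eq_one]
  rfl

/-- The homomorphism to the dual numbers defined by two close homomorphisms. -/
noncomputable def tangent (p : ℕ) (z z' : O →+* D) (j : ℕ) (hj : 2 ≤ j) (δ : O → D)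
    (hδ : ∀ h, z' h = z h + (p : D) ^ j * δ h) (hreg : ∀ a : D, (p : D) ^ j * a = 0 → a = 0) :
    O →+* DualNumber (D ⧸ Ideal.span {(p : D) ^ 2}) where
  toFun h := (Ideal.Quotient.mk _ (z h), Ideal.Quotient.mk _ (δ h))
  map_one' := by
    have h0 : δ 1 = 0 := hreg _ (by
      have := hδ 1
      rw [map_one, map_one] at this
      linear_combination -this)
    ext
    · show Ideal.Quotient.mk _ (z 1) = 1
      rw [map_one, map_one]
    · show Ideal.Quotient.mk _ (δ 1) = 0
      rw [h0, map_zero]
  map_zero' := by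
    have h0 : δ 0 = 0 := hreg _ (by
      have := hδ 0
      rw [map_zero, map_zero] at this
      linear_combination -this)
    ext
    · show Ideal.Quotient.mk _ (z 0) = 0
      rw [map_zero, map_zero]
    · show Ideal.Quotient.mk _ (δ 0) = 0
      rw [h0, map_zero]
  map_add' a b := by
    have h0 : δ (a + b) = δ a + δ b := by
      have := hreg (δ (a + b) - (δ a + δ b)) (by
        have h1 := hδ (a + b)
        have h2 := hδ a
        have h3 := hδ b
        rw [map_add, map_add] at h1
        linear_combination h2 + h3 - h1)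
      linear_combination this
    ext
    · show Ideal.Quotient.mk _ (z (a + b)) = Ideal.Quotient.mk _ (z a) + Ideal.Quotient.mk _ (z b)
      rw [map_add, map_add]
    · show Ideal.Quotient.mk _ (δ (a + b)) = Ideal.Quotient.mk _ (δ a) + Ideal.Quotient.mk _ (δ b)
      rw [h0, map_add]
  map_mul' a b := by
    have h0 : δ (a * b) = z a * δ b + z b * δ a + (p : D) ^ j * (δ a * δ b) := by
      have := hreg (δ (a * b) - (z a * δ b + z b * δ a + (p : D) ^ j * (δ a * δ b))) (by
        have h1 := hδ (a * b)
        have h2 := hδ a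
        have h3 := hδ b
        rw [map_mul, map_mul, h2, h3] at h1
        linear_combination -h1)
      linear_combination this
    have h2 : Ideal.Quotient.mk (Ideal.span {(p : D) ^ 2}) ((p : D) ^ j * (δ a * δ b)) = 0 := by
      rw [Ideal.Quotient.eq_zero_iff_mem, Ideal.mem_span_singleton]
      exact Dvd.dvd.mul_right (pow_dvd_pow _ hj) _
    apply TrivSqZeroExt.ext
    · show Ideal.Quotient.mk _ (z (a * b)) = _
      rw [TrivSqZeroExt.fst_mul, map_mul, map_mul]
      rfl
    · show Ideal.Quotient.mk _ (δ (a * b)) = _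
      rw [TrivSqZeroExt.snd_mul, h0, map_add, map_add, map_mul, map_mul, h2, add_zero]
      show _ = Ideal.Quotient.mk _ (z a) * Ideal.Quotient.mk _ (δ b) +
        Ideal.Quotient.mk _ (δ a) * Ideal.Quotient.mk _ (z b)
      ring

variable [IsDomain D]

theorem prime_step (p : ℕ) (hp : p.Prime) (hp0 : (p : D) ≠ 0)
    (hsep : ∀ x : D, (∀ j : ℕ, (p : D) ^ j ∣ x) → x = 0) (g : O → O)
    (htriv : ∀ (ψ : O →+* DualNumber (D ⧸ Ideal.span {(p : D) ^ 2})) (h : O), ψ (g h) = ψ h)
    (z z' : O →+* D) (hz' : ∀ h, z' h = z (g h)) (l : ℕ) (hl : l.Prime)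
    (hper : ∀ h, z (g^[l] h) = z h) : ∀ h, z (g h) = z h := by
  by_contra hcon
  push Not at hcon
  obtain ⟨h₀, hh₀⟩ := hcon
  -- divisibility by `p ^ 2`
  have hA2 : ∀ h, (p : D) ^ 2 ∣ z (g h) - z h := by
    intro h
    have h1 := htriv ((TrivSqZeroExt.inlHom (D ⧸ Ideal.span {(p : D) ^ 2})
      (D ⧸ Ideal.span {(p : D) ^ 2})).comp ((Ideal.Quotient.mk _).comp z)) h
    have h2 := congrArg TrivSqZeroExt.fst h1
    have h3 : Ideal.Quotient.mk (Ideal.span {(p : D) ^ 2}) (z (g h)) =
      Ideal.Quotient.mk (Ideal.span {(p : D) ^ 2}) (z h) := h2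
    rw [Ideal.Quotient.eq, Ideal.mem_span_singleton] at h3
    exact h3
  classical
  have hex : ∃ j, ¬ ∀ h, (p : D) ^ j ∣ z (g h) - z h := by
    by_contra hall
    push Not at hall
    apply hh₀
    have := hsep (z (g h₀) - z h₀) fun j => hall j h₀
    linear_combination this
  obtain ⟨j, hj, hmin⟩ : ∃ j, (¬ ∀ h, (p : D) ^ (j + 1) ∣ z (g h) - z h) ∧
      ∀ h, (p : D) ^ j ∣ z (g h) - z h := by
    have h0 : Nat.find hex ≠ 0 := by
      intro h0
      have := Nat.find_spec hex
      rw [h0] at this
      apply this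
      intro h
      simp
    obtain ⟨j, hj⟩ := Nat.exists_eq_succ_of_ne_zero h0
    refine ⟨j, ?_, ?_⟩
    · have := Nat.find_spec hex
      rwa [hj] at this
    · have := Nat.find_min hex (m := j) (by omega)
      push Not at this
      exact this
  have hj2 : 2 ≤ j := by
    by_contra hlt
    push Not at hlt
    apply hj
    intro h
    exact (pow_dvd_pow _ (by omega)).trans (hA2 h)
  choose δ hδ using hmin
  have hpj : (p : D) ^ j ≠ 0 := pow_ne_zero _ hp0
  have hreg : ∀ a : D, (p : D) ^ j * a = 0 → a = 0 := by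
    intro a ha
    rcases mul_eq_zero.1 ha with h | h
    · exact absurd h hpj
    · exact h
  have hδ' : ∀ h, z' h = z h + (p : D) ^ j * δ h := by
    intro h
    rw [hz' h]
    linear_combination hδ h
  have hstep : ∀ h, (p : D) ^ 2 ∣ δ (g h) - δ h := by
    intro h
    have h1 := congrArg TrivSqZeroExt.snd (htriv (tangent p z z' j hj2 δ hδ' hreg) h)
    have h3 : Ideal.Quotient.mk (Ideal.span {(p : D) ^ 2}) (δ (g h)) =
      Ideal.Quotient.mk (Ideal.span {(p : D) ^ 2}) (δ h) := h1
    rw [Ideal.Quotient.eq, Ideal.mem_span_singleton] at h3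
    exact h3
  have hit : ∀ (i : ℕ) (h : O), (p : D) ^ 2 ∣ δ (g^[i] h) - δ h := by
    intro i
    induction i with
    | zero => intro h; simp
    | succ i ih =>
      intro h
      rw [Function.iterate_succ_apply]
      have := dvd_add (ih (g h)) (hstep h)
      simpa using this
  have hsum : ∀ (i : ℕ) (h : O), z (g^[i] h) - z h =
      (p : D) ^ j * ∑ a ∈ Finset.range i, δ (g^[a] h) := by
    intro i
    induction i with
    | zero => intro h; simp
    | succ i ih =>
      intro h
      rw [Finset.sum_range_succ, mul_add, ← ih h, Function.iterate_succ_apply']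
      linear_combination hδ (g^[i] h)
  apply hj
  intro h
  have h1 : ∑ a ∈ Finset.range l, δ (g^[a] h) = 0 := by
    apply hreg
    rw [← hsum, hper h, sub_self]
  have h2 : (p : D) ^ 2 ∣ (l : D) * δ h := by
    have h3 : (p : D) ^ 2 ∣ ∑ a ∈ Finset.range l, (δ (g^[a] h) - δ h) :=
      Finset.dvd_sum fun a _ => hit a h
    rw [Finset.sum_sub_distrib, h1, Finset.sum_const, Finset.card_range, nsmul_eq_mul,
      zero_sub] at h3
    exact (dvd_neg.1 h3)
  have h4 : (p : D) ∣ δ h := by
    by_cases hlp : l = p
    · subst hlp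
      obtain ⟨u, hu⟩ := h2
      refine ⟨u, mul_left_cancel₀ hp0 ?_⟩
      linear_combination hu
    · have hcop : Nat.Coprime l p := (Nat.coprime_primes hl hp).2 hlp
      have hb := Nat.gcd_eq_gcd_ab l p
      rw [Nat.Coprime] at hcop
      rw [hcop] at hb
      have hb' : (1 : D) = (l : D) * ((Nat.gcdA l p : ℤ) : D) + (p : D) * ((Nat.gcdB l p : ℤ) : D) := by
        exact_mod_cast congrArg (Int.cast : ℤ → D) hb
      have h5 : δ h = ((Nat.gcdA l p : ℤ) : D) * ((l : D) * δ h) +
        (p : D) * (((Nat.gcdB l p : ℤ) : D) * δ h) := by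
        linear_combination (δ h) * hb'
      rw [h5]
      refine dvd_add (Dvd.dvd.mul_left ?_ _) (Dvd.intro _ rfl)
      exact (dvd_pow_self _ two_ne_zero).trans h2
  rw [hδ h, pow_succ]
  exact mul_dvd_mul_left _ h4

theorem periodic_step (p : ℕ) (hp : p.Prime) (hp0 : (p : D) ≠ 0)
    (hsep : ∀ x : D, (∀ j : ℕ, (p : D) ^ j ∣ x) → x = 0) (z : O →+* D) (n : ℕ) (hn : 0 < n) :
    ∀ (G : O →+* O), (∀ (ψ : O →+* DualNumber (D ⧸ Ideal.span {(p : D) ^ 2})) (h : O),
      ψ (G h) = ψ h) → (∀ h, z (G^[n] h) = z h) → ∀ h, z (G h) = z h := by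
  induction n using Nat.recOnMul with
  | zero => exact absurd hn (lt_irrefl 0)
  | one =>
    intro G _ hper
    simpa using hper
  | prime l hl =>
    intro G htriv hper
    exact prime_step p hp hp0 hsep G htriv z (z.comp G) (fun h => rfl) l hl hper
  | mul a b ha hb =>
    intro G htriv hper
    have hpos : 0 < a ∧ 0 < b := by
      constructor
      · exact Nat.pos_of_ne_zero fun h => by simp [h] at hn
      · exact Nat.pos_of_ne_zero fun h => by simp [h] at hn
    have hpow : ∀ (k : ℕ) (h : O), (G ^ k) h = G^[k] h := by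
      intro k
      induction k with
      | zero => intro h; rfl
      | succ k ih =>
        intro h
        rw [pow_succ', Function.iterate_succ_apply', ← ih]
        rfl
    have htriv' : ∀ (k : ℕ) (ψ : O →+* DualNumber (D ⧸ Ideal.span {(p : D) ^ 2})) (h : O),
        ψ (G^[k] h) = ψ h := by
      intro k
      induction k with
      | zero => intro ψ h; rfl
      | succ k ih =>
        intro ψ h
        rw [Function.iterate_succ_apply', htriv, ih]
    have h1 : ∀ h, z ((G ^ a) h) = z h := by
      refine hb hpos.2 (G ^ a) (fun ψ h => ?_) fun h => ?_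
      · rw [hpow]
        exact htriv' a ψ h
      · have h2 : (⇑(G ^ a))^[b] h = G^[a * b] h := by
          rw [Function.iterate_mul]
          congr 1
        rw [h2]
        exact hper h
    exact ha hpos.1 G htriv fun h => by rw [← hpow]; exact h1 h

/-- A homomorphism which is periodic under `f` is fixed by the `M`-th power of `f`. -/
theorem lemmaP (p : ℕ) (hp : p.Prime) (hp0 : (p : D) ≠ 0)
    (hsep : ∀ x : D, (∀ j : ℕ, (p : D) ^ j ∣ x) → x = 0)
    [Finite (O →+* DualNumber (D ⧸ Ideal.span {(p : D) ^ 2}))] (f : O ≃+* O) :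
    ∃ M, 0 < M ∧ (∀ (ψ : O →+* DualNumber (D ⧸ Ideal.span {(p : D) ^ 2})) (h : O),
      ψ (f^[M] h) = ψ h) ∧ ∀ (z : O →+* D) (n : ℕ), 0 < n → (∀ h, z (f^[n] h) = z h) →
      ∀ h, z (f^[M] h) = z h := by
  obtain ⟨M, hM, htriv⟩ := exists_trivial (O := O)
    (R := DualNumber (D ⧸ Ideal.span {(p : D) ^ 2})) f
  refine ⟨M, hM, htriv, fun z n hn hper => ?_⟩
  have hpow : ∀ (k : ℕ) (h : O), ((f : O →+* O) ^ k) h = f^[k] h := by
    intro k
    induction k with
    | zero => intro h; rfl
    | succ k ih =>
      intro h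
      rw [pow_succ', Function.iterate_succ_apply', ← ih]
      rfl
  have hper' : ∀ h, z ((⇑((f : O →+* O) ^ M))^[n] h) = z h := by
    intro h
    have h2 : (⇑((f : O →+* O) ^ M))^[n] h = (f^[n])^[M] h := by
      rw [← Function.iterate_mul, mul_comm, Function.iterate_mul]
      congr 1
    rw [h2]
    have : ∀ (k : ℕ) (h : O), z ((f^[n])^[k] h) = z h := by
      intro k
      induction k with
      | zero => intro h; rfl
      | succ k ih =>
        intro h
        rw [Function.iterate_succ_apply', hper, ih]
    exact this M h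
  intro h
  have := periodic_step p hp hp0 hsep z n hn ((f : O →+* O) ^ M) (fun ψ h => by
    rw [hpow]
    exact htriv ψ h) hper' h
  rwa [hpow] at this

end Pool.Agent.Helper47.NPD
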